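import Pool.Agent.N789.MO.Stm
import Pool.Agent.TH127.MO.Top

/-!
Library N789.MO: from MO functions to bounded multiplicative functions.
-/

set_option autoImplicit false

open Finset Filter Topology

namespace Pool.Agent.N789.MO

open Pool.Agent.TH127.MO

/-- `n f(n)` -/
noncomputable def hh (f : ℕ → ℂ) (n : ℕ) : ℂ := (n : ℂ) * f n

lemma near_hh {f : ℕ → ℂ} (hf : IsMO f) {K : ℝ} (hK : ∀ N : ℕ, 1 ≤ N → ‖s f N‖ ≤ K / N) :
    Near (hh f) (3 * K) := by
  have hK1 := one_le_K hf hK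
  have hB := norm_f_le hK
  have hbd : ∀ n : ℕ, ‖hh f n‖ ≤ 3 * K := by
    intro n
    unfold hh
    rcases Nat.eq_zero_or_pos n with rfl | hn
    · rw [Nat.cast_zero, zero_mul, norm_zero]
      linarith
    · have hn0 : (0 : ℝ) < n := by exact_mod_cast hn
      have h1 := hB n hn
      rw [le_div_iff₀ hn0] at h1
      rw [norm_mul, Complex.norm_natCast]
      linarith
  have hre : ∀ p : ℕ, (hh f p).re = p * (f p).re := by
    intro p
    unfold hh
    rw [← Complex.ofReal_natCast, Complex.re_ofReal_mul]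
  refine ⟨by simp [hh], by simp [hh, hf.one], ?_, hbd, ?_, ?_⟩
  · intro m n hm hn hmn
    unfold hh
    rw [hf.mul m n hm hn hmn]
    push_cast
    ring
  · have hKx : ∀ x : ℝ, 1 ≤ x → ‖S f x‖ ≤ 2 * K / x := by
      intro x hx
      have h1 : 1 ≤ ⌊x⌋₊ := Nat.le_floor (by simpa using hx)
      have h2 := hK ⌊x⌋₊ h1
      have h3 : S f x = s f ⌊x⌋₊ := rfl
      rw [h3]
      refine h2.trans ?_
      have hx0 : (0 : ℝ) < x := by linarith
      have h4 : (0 : ℝ) < (⌊x⌋₊ : ℝ) := by exact_mod_cast h1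
      rw [div_le_div_iff₀ h4 hx0]
      have h5 := Nat.lt_floor_add_one x
      have h6 : (1 : ℝ) ≤ (⌊x⌋₊ : ℝ) := by exact_mod_cast h1
      nlinarith
    refine (summable_dist hf hKx).congr fun p => ?_
    rw [hre]
  · have hle : ∀ p : Nat.Primes, max (‖hh f p‖ - 1) 0 / ((p : ℕ) : ℝ) ≤ excess f p := by
      intro p
      have h1 : ‖hh f p‖ = ((p : ℕ) : ℝ) * ‖f p‖ := by
        unfold hh
        rw [norm_mul, Complex.norm_natCast]
      rw [h1]
      have hp : (1 : ℝ) ≤ ((p : ℕ) : ℝ) := by exact_mod_cast p.2.one_lt.le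
      exact div_le_self (excess_nonneg f p) hp
    refine Summable.of_nonneg_of_le (fun p => by positivity) hle ?_
    refine summable_of_sum_le (c := 3 * K * Real.log (3 * K)) (fun p => excess_nonneg f p) ?_
    intro u
    have h1 := sum_excess_le hf (by linarith : 1 ≤ 3 * K) hB
      (u.map ⟨fun p : Nat.Primes => (p : ℕ), Subtype.val_injective⟩) (by
        intro p hp
        rw [Finset.mem_map] at hp
        obtain ⟨q, -, rfl⟩ := hp
        exact q.2)
    rw [Finset.sum_map] at h1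
    exact h1

lemma abel (f : ℕ → ℂ) (n L : ℕ) : ∑ m ∈ Ioc n (n + L), hh f m =
    ((n + L : ℕ) : ℂ) * s f (n + L) - (n : ℂ) * s f n - ∑ m ∈ Ico n (n + L), s f m := by
  induction L with
  | zero => simp
  | succ L ih =>
    rw [← add_assoc, Finset.sum_Ioc_succ_top (by omega), Finset.sum_Ico_succ_top (by omega), ih,
      s_succ]
    unfold hh
    push_cast
    ring

lemma window {f : ℕ → ℂ} {K : ℝ} (hK : ∀ N : ℕ, 1 ≤ N → ‖s f N‖ ≤ K / N) (n L : ℕ) (hL : 1 ≤ L)
    (hn : L ≤ n) : ‖∑ m ∈ Ioc n (n + L), hh f m‖ ≤ 3 * K := by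
  have hn1 : 1 ≤ n := by omega
  have hK0 : 0 ≤ K := by
    have := (norm_nonneg _).trans (hK 1 le_rfl)
    simpa using this
  have h0 : ∀ m : ℕ, 1 ≤ m → ‖(m : ℂ) * s f m‖ ≤ K := by
    intro m hm
    have hm0 : (0 : ℝ) < m := by exact_mod_cast hm
    have h1 := hK m hm
    rw [le_div_iff₀ hm0] at h1
    rw [norm_mul, Complex.norm_natCast]
    linarith
  have hn0 : (0 : ℝ) < n := by exact_mod_cast hn1
  have h3 : ‖∑ m ∈ Ico n (n + L), s f m‖ ≤ K := by
    refine (norm_sum_le _ _).trans ?_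
    have h4 : ∀ m ∈ Ico n (n + L), ‖s f m‖ ≤ K / n := by
      intro m hm
      rw [mem_Ico] at hm
      refine (hK m (by omega)).trans ?_
      apply div_le_div_of_nonneg_left hK0 hn0
      exact_mod_cast hm.1
    refine (sum_le_sum h4).trans ?_
    rw [sum_const, Nat.card_Ico, nsmul_eq_mul, Nat.add_sub_cancel_left]
    have h5 : (L : ℝ) ≤ n := by exact_mod_cast hn
    calc (L : ℝ) * (K / n) ≤ n * (K / n) := mul_le_mul_of_nonneg_right h5 (by positivity)
      _ = K := by field_simp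
  rw [abel]
  have h1 := h0 (n + L) (by omega)
  have h2 := h0 n hn1
  have h6 := norm_sub_le (((n + L : ℕ) : ℂ) * s f (n + L) - (n : ℂ) * s f n)
    (∑ m ∈ Ico n (n + L), s f m)
  have h7 := norm_sub_le (((n + L : ℕ) : ℂ) * s f (n + L)) ((n : ℂ) * s f n)
  linarith

/-- the partial sums are not `O(1/x)` -/
theorem not_bdd (hW : S_WIN) {f : ℕ → ℂ} (hf : IsMO f) (K : ℝ) :
    ¬ ∀ N : ℕ, 1 ≤ N → ‖s f N‖ ≤ K / N := by
  intro hK
  obtain ⟨n, L, hL, hn, hC⟩ := hW (hh f) (3 * K) (near_hh hf hK) (3 * K)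
  exact absurd (window hK n L hL hn) (not_le.2 hC)

theorem frequently_gt (hW : S_WIN) {f : ℕ → ℂ} (hf : IsMO f) (C : ℝ) :
    ∃ᶠ x : ℝ in atTop, C / x < ‖S f x‖ := by
  by_contra hcon
  rw [not_frequently] at hcon
  obtain ⟨x0, hx0⟩ := eventually_atTop.1 hcon
  obtain ⟨N, hN⟩ := exists_nat_ge x0
  refine not_bdd hW hf (|C| + ∑ m ∈ range (N + 1), (m : ℝ) * ‖s f m‖) fun n hn => ?_
  have hn0 : (0 : ℝ) < n := by exact_mod_cast hn
  have hnn : ∀ m ∈ range (N + 1), 0 ≤ (m : ℝ) * ‖s f m‖ := fun m _ => by positivity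
  rw [le_div_iff₀ hn0]
  rcases Nat.lt_or_ge N n with h1 | h1
  · have h2 := hx0 n (hN.trans (by exact_mod_cast h1.le))
    rw [not_lt, S_natCast, le_div_iff₀ hn0] at h2
    have h3 := Finset.sum_nonneg hnn
    have h4 := le_abs_self C
    linarith
  · have h2 := Finset.single_le_sum hnn (Finset.mem_range.2 (by omega : n < N + 1))
    have h3 := abs_nonneg C
    have h4 : ‖s f n‖ * (n : ℝ) = (n : ℝ) * ‖s f n‖ := mul_comm _ _
    linarith

end Pool.Agent.N789.MO
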