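import Mathlib
import Pool.Agent.H376R2.MR.Defs
import Pool.Agent.Y958.U.Stm

/-!
Library N789.MO (helper789): bounded multiplicative functions whose values at primes are close to
`-1` have unbounded window sums; applied to MO functions with `S_f(x) = O(1/x)`. Exact statements of
the tasks.
-/

set_option autoImplicit false

open Finset

namespace Pool.Agent.N789.MO

open Pool.Agent.H376R2.MR (lam)
open Pool.Agent.Y958.U (LZ)

/-- a multiplicative function bounded by `B`, close to `-1` at the primes (in the real part), with few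
values of absolute value larger than `1` at primes -/
structure Near (h : ℕ → ℂ) (B : ℝ) : Prop where
  zero : h 0 = 0
  one : h 1 = 1
  mul : ∀ m n : ℕ, 1 ≤ m → 1 ≤ n → Nat.Coprime m n → h (m * n) = h m * h n
  bd : ∀ n : ℕ, ‖h n‖ ≤ B
  re : Summable fun p : Nat.Primes => |1 + (h p).re| / ((p : ℕ) : ℝ)
  ex : Summable fun p : Nat.Primes => max (‖h p‖ - 1) 0 / ((p : ℕ) : ℝ)

/-- (DEC) `λ h` is nearly periodic up to rotations depending on the scale -/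
def S_DEC : Prop := ∀ (h : ℕ → ℂ) (B : ℝ), Near h B → ∀ ε : ℝ, 0 < ε →
  ∃ (Q : ℕ) (w : ℕ → ℂ), 1 ≤ Q ∧ (∀ n, ‖w n‖ ≤ B) ∧ (∀ n, w (n + Q) = w n) ∧
    ∃ N₀ : ℕ, ∀ N : ℕ, N₀ ≤ N → ∃ u : ℂ, ‖u‖ = 1 ∧
      ∑ n ∈ range N, ‖(lam n : ℂ) * h n - u * w n‖ ≤ ε * N

/-- (LOW) lower bound for the mean square -/
def S_LOW : Prop := ∀ (h : ℕ → ℂ) (B : ℝ), Near h B → ∃ c : ℝ, 0 < c ∧ ∃ N₀ : ℕ, ∀ N : ℕ, N₀ ≤ N →
  c * N ≤ ∑ n ∈ range N, ‖h n‖ ^ 2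

/-- (OFF) the correlations are small at almost all scales -/
def S_OFF : Prop := ∃ F : Set ℕ, LZ F ∧ ∀ (h : ℕ → ℂ) (B : ℝ), Near h B → ∀ r : ℕ, 1 ≤ r →
  ∀ ε : ℝ, 0 < ε → ∃ N₀ : ℕ, ∀ N : ℕ, N₀ ≤ N → N ∉ F →
    ‖∑ n ∈ range N, h (n + r) * (starRingEnd ℂ) (h n)‖ ≤ ε * N

/-- (WIN) unbounded window sums -/
def S_WIN : Prop := ∀ (h : ℕ → ℂ) (B : ℝ), Near h B → ∀ C : ℝ,
  ∃ n L : ℕ, 1 ≤ L ∧ L ≤ n ∧ C < ‖∑ m ∈ Ioc n (n + L), h m‖

end Pool.Agent.N789.MO
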