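import Pool.Agent.N789.MO.Stm

/-!
Library N789.MO: the second moment of the window sums.
-/

set_option autoImplicit false

open Finset Filter Topology

namespace Pool.Agent.N789.MO

open Pool.Agent.Y958.U (LZ)

/-- a set of logarithmic density zero misses arbitrarily large numbers -/
lemma exists_notMem {F : Set ℕ} (hF : LZ F) (M : ℕ) : ∃ N, M ≤ N ∧ N ∉ F := by
  classical
  by_contra hcon
  push Not at hcon
  set M' := max M 1 with hM'
  unfold LZ at hF
  have h1 : ∀ᶠ X : ℕ in atTop,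
      (∑ n ∈ Icc 1 X, if n ∈ F then (1 : ℝ) / n else 0) / Real.log X < 1 / 2 :=
    hF.eventually_lt_const (by norm_num)
  have h2 : ∀ᶠ X : ℕ in atTop, 2 * (M' : ℝ) + 1 < Real.log X :=
    (Real.tendsto_log_atTop.comp tendsto_natCast_atTop_atTop).eventually_gt_atTop _
  obtain ⟨X, ⟨hX1, hX2⟩, hX3⟩ := ((h1.and h2).and (eventually_ge_atTop 1)).exists
  have hM0 : (0 : ℝ) ≤ M' := Nat.cast_nonneg _
  have hlog : 0 < Real.log X := by linarith
  rw [div_lt_iff₀ hlog] at hX1
  have h3 : Real.log X ≤ ∑ n ∈ Icc 1 X, (1 : ℝ) / n := by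
    have h4 := log_add_one_le_harmonic X
    have h5 : Real.log X ≤ Real.log ((X : ℝ) + 1) :=
      Real.log_le_log (by exact_mod_cast (by omega : 0 < X)) (by linarith)
    have h6 : ((harmonic X : ℚ) : ℝ) = ∑ n ∈ Icc 1 X, (1 : ℝ) / n := by
      rw [harmonic_eq_sum_Icc]
      push_cast
      refine sum_congr rfl fun n _ => ?_
      rw [one_div]
    rw [h6] at h4
    push_cast at h4
    linarith
  have h7 : ∑ n ∈ Icc 1 X, (1 : ℝ) / n ≤
      (∑ n ∈ Icc 1 X, if n ∈ F then (1 : ℝ) / n else 0) +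
        ∑ n ∈ Icc 1 X, if n < M' then (1 : ℝ) else 0 := by
    rw [← sum_add_distrib]
    refine sum_le_sum fun n hn => ?_
    rw [mem_Icc] at hn
    have hn1 : (1 : ℝ) / n ≤ 1 := by
      rw [div_le_one (by exact_mod_cast (by omega : 0 < n))]
      exact_mod_cast hn.1
    have hn0 : (0 : ℝ) ≤ 1 / n := by positivity
    by_cases h8 : n < M'
    · rw [if_pos h8]
      split_ifs <;> linarith
    · rw [if_pos (hcon n (by omega)), if_neg h8, add_zero]
  have h9 : ∑ n ∈ Icc 1 X, (if n < M' then (1 : ℝ) else 0) ≤ M' := by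
    rw [← sum_filter, sum_const, nsmul_eq_mul, mul_one]
    have h10 : ((Icc 1 X).filter (fun n => n < M')).card ≤ (range M').card := by
      apply card_le_card
      intro n hn
      rw [mem_filter] at hn
      exact mem_range.2 hn.2
    rw [card_range] at h10
    exact_mod_cast h10
  linarith

lemma shift_le {G : ℕ → ℂ} {D : ℝ} (hG : ∀ n, ‖G n‖ ≤ D) (N i : ℕ) :
    ‖∑ n ∈ range N, G (n + i) - ∑ n ∈ range N, G n‖ ≤ 2 * i * D := by
  induction i with
  | zero => simp
  | succ i ih =>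
    have h1 : ∑ n ∈ range N, G (n + (i + 1)) = ∑ n ∈ range N, G (n + i) + G (N + i) - G i := by
      have h2 := Finset.sum_range_succ (fun n => G (n + i)) N
      have h3 := Finset.sum_range_succ' (fun n => G (n + i)) N
      rw [h2] at h3
      simp only [zero_add] at h3
      have h4 : ∑ n ∈ range N, G (n + (i + 1)) = ∑ n ∈ range N, G (n + 1 + i) :=
        sum_congr rfl fun n _ => by rw [add_assoc, add_comm 1 i]
      rw [h4]
      linear_combination -h3
    have h5 : ∑ n ∈ range N, G (n + (i + 1)) - ∑ n ∈ range N, G n =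
        (∑ n ∈ range N, G (n + i) - ∑ n ∈ range N, G n) + G (N + i) - G i := by
      rw [h1]; ring
    rw [h5]
    have h6 := norm_sub_le ((∑ n ∈ range N, G (n + i) - ∑ n ∈ range N, G n) + G (N + i)) (G i)
    have h7 := norm_add_le (∑ n ∈ range N, G (n + i) - ∑ n ∈ range N, G n) (G (N + i))
    have h8 := hG i
    have h9 := hG (N + i)
    push_cast
    nlinarith

lemma norm_sq_add (a b : ℂ) :
    ‖a + b‖ ^ 2 = ‖a‖ ^ 2 + ‖b‖ ^ 2 + 2 * (b * (starRingEnd ℂ) a).re := by
  rw [← Complex.normSq_eq_norm_sq, ← Complex.normSq_eq_norm_sq, ← Complex.normSq_eq_norm_sq,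
    Complex.normSq_add]
  have : (a * (starRingEnd ℂ) b).re = (b * (starRingEnd ℂ) a).re := by
    simp only [Complex.mul_re, Complex.conj_re, Complex.conj_im]
    ring
  rw [this]

/-- the step of the induction over the length of the windows -/
lemma step (h : ℕ → ℂ) (N l : ℕ) :
    ∑ n ∈ range N, ‖∑ j ∈ range (l + 1), h (n + j)‖ ^ 2 =
      ∑ n ∈ range N, ‖∑ j ∈ range l, h (n + j)‖ ^ 2 + ∑ n ∈ range N, ‖h (n + l)‖ ^ 2 +
        2 * (∑ i ∈ range l, ∑ n ∈ range N, h (n + l) * (starRingEnd ℂ) (h (n + i))).re := by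
  have h1 : ∀ n, ‖∑ j ∈ range (l + 1), h (n + j)‖ ^ 2 = ‖∑ j ∈ range l, h (n + j)‖ ^ 2 +
      ‖h (n + l)‖ ^ 2 + 2 * (∑ i ∈ range l, h (n + l) * (starRingEnd ℂ) (h (n + i))).re := by
    intro n
    rw [sum_range_succ, norm_sq_add, map_sum, mul_sum]
  rw [sum_congr rfl fun n _ => h1 n, sum_add_distrib, sum_add_distrib, ← mul_sum, sum_comm,
    ← Complex.re_sum]

theorem win (hO : S_OFF) (hL : S_LOW) : S_WIN := by
  intro h B hN C
  by_contra hcon
  push Not at hcon
  obtain ⟨F, hF, hoff⟩ := hO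
  obtain ⟨c, hc, N₁, hlow⟩ := hL h B hN
  have hB1 : 1 ≤ B := by
    have := hN.bd 1
    rw [hN.one, norm_one] at this
    exact this
  have hB0 : 0 < B := by linarith
  have hC0 : 0 ≤ C := (norm_nonneg _).trans (hcon 1 1 le_rfl le_rfl)
  obtain ⟨L, hLc⟩ := exists_nat_gt (2 * (C ^ 2 + 1) / c)
  rw [div_lt_iff₀ hc] at hLc
  have hL0 : 1 ≤ L := by
    by_contra h0
    have : L = 0 := by omega
    rw [this, Nat.cast_zero, zero_mul] at hLc
    nlinarith [sq_nonneg C]
  have hLr : (1 : ℝ) ≤ L := by exact_mod_cast hL0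
  set ε : ℝ := c / (4 * L) with hε
  have hε0 : 0 < ε := by positivity
  have hεL : 2 * L * ε = c / 2 := by
    rw [hε]; field_simp; ring
  -- one threshold for all shifts
  have hthr : ∃ N₂ : ℕ, ∀ r : ℕ, 1 ≤ r → r ≤ L → ∀ N : ℕ, N₂ ≤ N → N ∉ F →
      ‖∑ n ∈ range N, h (n + r) * (starRingEnd ℂ) (h n)‖ ≤ ε * N := by
    choose! T hT using fun (r : ℕ) (hr : 1 ≤ r) => hoff h B hN r hr ε hε0
    refine ⟨∑ r ∈ range (L + 1), T r, fun r hr hrL N hNN hNF => hT r hr N ?_ hNF⟩
    refine le_trans ?_ hNN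
    exact single_le_sum (f := T) (fun _ _ => Nat.zero_le _) (mem_range.2 (by omega))
  obtain ⟨N₂, hN₂⟩ := hthr
  obtain ⟨N₃, hN₃⟩ := exists_nat_gt (6 * (L : ℝ) ^ 3 * B ^ 2 + ((L : ℝ) + 1) * (L * B) ^ 2)
  obtain ⟨N, hNge, hNF⟩ := exists_notMem hF (max (max N₁ N₂) (max N₃ 1))
  have hN1 : N₁ ≤ N := le_trans (le_trans (le_max_left _ _) (le_max_left _ _)) hNge
  have hN2 : N₂ ≤ N := le_trans (le_trans (le_max_right _ _) (le_max_left _ _)) hNge
  have hN3 : N₃ ≤ N := le_trans (le_trans (le_max_left _ _) (le_max_right _ _)) hNge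
  have hNr : (0 : ℝ) ≤ N := Nat.cast_nonneg _
  have hN3' : (6 * (L : ℝ) ^ 3 * B ^ 2 + ((L : ℝ) + 1) * (L * B) ^ 2) < N :=
    lt_of_lt_of_le hN₃ (by exact_mod_cast hN3)
  have hnorm : ∀ a b : ℕ, ‖h a * (starRingEnd ℂ) (h b)‖ ≤ B ^ 2 := by
    intro a b
    rw [norm_mul, RCLike.norm_conj, sq]
    exact mul_le_mul (hN.bd a) (hN.bd b) (norm_nonneg _) hB0.le
  -- shifted diagonal
  have hdiag : ∀ l : ℕ, l ≤ L → c * N - 2 * L * B ^ 2 ≤ ∑ n ∈ range N, ‖h (n + l)‖ ^ 2 := by
    intro l hl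
    have h1 := shift_le (G := fun n => h n * (starRingEnd ℂ) (h n)) (fun n => hnorm n n) N l
    have e1 : ∀ n, h n * (starRingEnd ℂ) (h n) = ((‖h n‖ ^ 2 : ℝ) : ℂ) := by
      intro n
      rw [Complex.mul_conj, Complex.normSq_eq_norm_sq]
    simp only [e1] at h1
    rw [← Complex.ofReal_sum, ← Complex.ofReal_sum, ← Complex.ofReal_sub, Complex.norm_real,
      Real.norm_eq_abs] at h1
    have h2 := (abs_le.1 h1).1
    have h3 := hlow N hN1
    have h4 : (l : ℝ) ≤ L := by exact_mod_cast hl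
    have h5 : (0 : ℝ) ≤ B ^ 2 := by positivity
    nlinarith
  -- shifted correlations
  have hoffd : ∀ l : ℕ, l ≤ L → ∀ i ∈ range l,
      ‖∑ n ∈ range N, h (n + l) * (starRingEnd ℂ) (h (n + i))‖ ≤ ε * N + 2 * L * B ^ 2 := by
    intro l hl i hi
    rw [mem_range] at hi
    have h1 := shift_le (G := fun n => h (n + (l - i)) * (starRingEnd ℂ) (h n))
      (fun n => hnorm _ _) N i
    have h2 := hN₂ (l - i) (by omega) (by omega) N hN2 hNF
    have e1 : ∑ n ∈ range N, h (n + l) * (starRingEnd ℂ) (h (n + i)) =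
        ∑ n ∈ range N, h (n + i + (l - i)) * (starRingEnd ℂ) (h (n + i)) := by
      refine sum_congr rfl fun n _ => ?_
      rw [show n + i + (l - i) = n + l by omega]
    rw [e1]
    have h3 := norm_le_norm_sub_add
      (∑ n ∈ range N, h (n + i + (l - i)) * (starRingEnd ℂ) (h (n + i)))
      (∑ n ∈ range N, h (n + (l - i)) * (starRingEnd ℂ) (h n))
    have h4 : (i : ℝ) ≤ L := by exact_mod_cast (by omega : i ≤ L)
    have h5 : (0 : ℝ) ≤ B ^ 2 := by positivity
    have h6 : 2 * (i : ℝ) * B ^ 2 ≤ 2 * L * B ^ 2 := by nlinarith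
    beta_reduce at h1
    linarith
  -- lower bound
  have hlower : ∀ l : ℕ, l ≤ L → (l : ℝ) * (c * N - 2 * L * ε * N - 6 * L ^ 2 * B ^ 2) ≤
      ∑ n ∈ range N, ‖∑ j ∈ range l, h (n + j)‖ ^ 2 := by
    intro l
    induction l with
    | zero =>
      intro _
      simp
    | succ l ih =>
      intro hl
      rw [step]
      have h1 := ih (by omega)
      have h2 := hdiag l (by omega)
      have h3 : -(l * (ε * N + 2 * L * B ^ 2)) ≤
          (∑ i ∈ range l, ∑ n ∈ range N, h (n + l) * (starRingEnd ℂ) (h (n + i))).re := by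
        have h4 : ‖∑ i ∈ range l, ∑ n ∈ range N, h (n + l) * (starRingEnd ℂ) (h (n + i))‖ ≤
            l * (ε * N + 2 * L * B ^ 2) := by
          refine (norm_sum_le _ _).trans ?_
          refine (sum_le_sum (hoffd l (by omega))).trans ?_
          rw [sum_const, card_range, nsmul_eq_mul]
        have h5 := Complex.abs_re_le_norm
          (∑ i ∈ range l, ∑ n ∈ range N, h (n + l) * (starRingEnd ℂ) (h (n + i)))
        have h6 := (abs_le.1 h5).1
        linarith
      have h7 : (l : ℝ) ≤ L := by exact_mod_cast (by omega : l ≤ L)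
      have h8 : (0 : ℝ) ≤ B ^ 2 := by positivity
      have h9 : (l : ℝ) * (ε * N + 2 * L * B ^ 2) ≤ L * (ε * N + 2 * L * B ^ 2) := by
        apply mul_le_mul_of_nonneg_right h7
        positivity
      have h10 : 2 * L * B ^ 2 ≤ 2 * (L : ℝ) ^ 2 * B ^ 2 := by
        have : (L : ℝ) ≤ L ^ 2 := by nlinarith
        nlinarith
      push_cast
      nlinarith
  -- upper bound
  have hupper : ∑ n ∈ range N, ‖∑ j ∈ range L, h (n + j)‖ ^ 2 ≤
      N * C ^ 2 + ((L : ℝ) + 1) * (L * B) ^ 2 := by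
    have h1 : ∀ n ∈ range N, ‖∑ j ∈ range L, h (n + j)‖ ^ 2 ≤
        C ^ 2 + if n < L + 1 then (L * B) ^ 2 else 0 := by
      intro n _
      split_ifs with h2
      · have h3 : ‖∑ j ∈ range L, h (n + j)‖ ≤ L * B := by
          refine (norm_sum_le _ _).trans ?_
          refine (sum_le_sum fun j _ => hN.bd (n + j)).trans ?_
          rw [sum_const, card_range, nsmul_eq_mul]
        have h4 := pow_le_pow_left₀ (norm_nonneg _) h3 2
        have h5 := sq_nonneg C
        linarith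
      · obtain ⟨m, rfl⟩ : ∃ m, n = m + 1 := ⟨n - 1, by omega⟩
        have h3 := hcon m L hL0 (by omega)
        have e1 : ∑ k ∈ Ioc m (m + L), h k = ∑ j ∈ range L, h (m + 1 + j) := by
          rw [show Ioc m (m + L) = Ico (m + 1) (m + L + 1) from by
              ext k; simp only [mem_Ioc, mem_Ico]; omega,
            Finset.sum_Ico_eq_sum_range, show m + L + 1 - (m + 1) = L by omega]
        rw [← e1, add_zero]
        exact pow_le_pow_left₀ (norm_nonneg _) h3 2
    refine (sum_le_sum h1).trans ?_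
    rw [sum_add_distrib, sum_const, card_range, nsmul_eq_mul]
    have h2 : ∑ n ∈ range N, (if n < L + 1 then ((L : ℝ) * B) ^ 2 else 0) ≤
        ((L : ℝ) + 1) * (L * B) ^ 2 := by
      rw [← sum_filter, sum_const, nsmul_eq_mul]
      apply mul_le_mul_of_nonneg_right _ (by positivity)
      have h10 : ((range N).filter (fun n => n < L + 1)).card ≤ (range (L + 1)).card := by
        apply card_le_card
        intro n hn
        rw [mem_filter] at hn
        exact mem_range.2 hn.2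
      rw [card_range] at h10
      exact_mod_cast h10
    linarith
  have h1 := hlower L le_rfl
  have h2 : (L : ℝ) * (c * N - 2 * L * ε * N - 6 * L ^ 2 * B ^ 2) =
      N * (L * c / 2) - 6 * L ^ 3 * B ^ 2 := by
    rw [hεL]; ring
  rw [h2] at h1
  have h3 : N * (C ^ 2 + 1) ≤ N * (L * c / 2) := by
    apply mul_le_mul_of_nonneg_left _ hNr
    linarith
  linarith

end Pool.Agent.N789.MO
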